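import Pool.Agent.helper54.Expl.Fin2

/-!
# Distance to the layered permutations: definitions

PROJECT FAR (MP_cb98a7_co, helper58 and helper54).
-/

set_option autoImplicit false
open Finset Equiv Pool.Agent.helper54.Schub

namespace Pool.Agent.helper54.Far

/-- the inversions of `w` (positions) -/
def Iv (n : ℕ) (w : Perm ℕ) : Finset (ℕ × ℕ) :=
  (range n ×ˢ range n).filter fun p => p.1 < p.2 ∧ w p.2 < w p.1

/-- the pairs of positions which are ordered differently by `w` and by `v` -/
def Dis (n : ℕ) (w v : Perm ℕ) : Finset (ℕ × ℕ) :=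
  (range n ×ˢ range n).filter fun p => p.1 < p.2 ∧ ¬ (w p.2 < w p.1 ↔ v p.2 < v p.1)

end Pool.Agent.helper54.Far
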