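import Pool.Agent.helper54.Far.FDefs

/-!
# The pattern of a permutation inside the layers of a layered permutation
-/

set_option autoImplicit false
open Finset Equiv Pool.Agent.helper54.Schub

namespace Pool.Agent.helper54.Far

lemma exists_block {p : ℕ} {a : ℕ → ℕ} (h0 : a 0 = 0) : ∀ k : ℕ, p < a k →
    ∃ t, t < k ∧ a t ≤ p ∧ p < a (t + 1)
  | 0, h => by rw [h0] at h; exact absurd h (Nat.not_lt_zero _)
  | k + 1, h => by
    by_cases h1 : p < a k
    · obtain ⟨t, ht, h2⟩ := exists_block h0 k h1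
      exact ⟨t, by omega, h2⟩
    · exact ⟨k, by omega, by omega, h⟩

lemma block_mono {a : ℕ → ℕ} {k : ℕ} (h : ∀ t < k, a t < a (t + 1)) {s : ℕ} :
    ∀ t, s ≤ t → t ≤ k → a s ≤ a t
  | 0, h1, _ => by
    have : s = 0 := by omega
    rw [this]
  | t + 1, h1, h2 => by
    rcases Nat.lt_or_ge t s with h3 | h3
    · have : s = t + 1 := by omega
      rw [this]
    · exact (block_mono h t h3 (by omega)).trans (h t (by omega)).le

/-- two positions of a layered permutation -/
lemma layered_pair {n : ℕ} {v : Perm (Fin n)} (hv : IsLayered v) {i j : Fin n} (hij : i < j) :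
    ((v i : ℕ) + i = v j + j ∧ v j < v i) ∨ ((v i : ℕ) + i < v j + j ∧ v i < v j) := by
  obtain ⟨k, a, h0, hk, hlt, hb⟩ := hv
  have hij' : (i : ℕ) < j := hij
  obtain ⟨s, hs, hs1, hs2⟩ := exists_block h0 k (p := (i : ℕ)) (by rw [hk]; exact i.2)
  obtain ⟨t, ht, ht1, ht2⟩ := exists_block h0 k (p := (j : ℕ)) (by rw [hk]; exact j.2)
  have e1 := hb s hs i hs1 hs2
  have e2 := hb t ht j ht1 ht2
  rcases Nat.lt_trichotomy s t with h | h | h
  · right
    have h3 := block_mono hlt (s := s + 1) t h ht.le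
    have h4 := hlt s hs
    have h5 := hlt t ht
    refine ⟨by omega, ?_⟩
    rw [Fin.lt_def]
    omega
  · left
    subst h
    refine ⟨by omega, ?_⟩
    rw [Fin.lt_def]
    omega
  · exfalso
    have h3 := block_mono hlt (s := t + 1) s h hs.le
    omega

/-- the key of a position -/
def key {n : ℕ} (v w : Perm (Fin n)) (i : Fin n) : ℕ := ((v i : ℕ) + i) * n + w i

lemma key_lt {n : ℕ} (v w : Perm (Fin n)) (i j : Fin n) : key v w i < key v w j ↔
    ((v i : ℕ) + i < v j + j ∨ ((v i : ℕ) + i = v j + j ∧ w i < w j)) := by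
  unfold key
  have h1 := (w i).2
  have h2 := (w j).2
  rw [Fin.lt_def]
  constructor
  · intro h
    rcases Nat.lt_trichotomy ((v i : ℕ) + i) (v j + j) with h3 | h3 | h3
    · exact Or.inl h3
    · right
      refine ⟨h3, ?_⟩
      rw [h3] at h
      omega
    · exfalso
      have h4 : ((v j : ℕ) + j + 1) * n ≤ ((v i : ℕ) + i) * n := Nat.mul_le_mul_right _ h3
      rw [add_mul _ 1, one_mul] at h4
      omega
  · rintro (h | ⟨h, h3⟩)
    · have h4 : ((v i : ℕ) + i + 1) * n ≤ ((v j : ℕ) + j) * n := Nat.mul_le_mul_right _ h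
      rw [add_mul _ 1, one_mul] at h4
      omega
    · rw [h]; omega

lemma key_inj {n : ℕ} (v w : Perm (Fin n)) : Function.Injective (key v w) := by
  intro i j h
  by_contra hne
  have hw : w i ≠ w j := fun h1 => hne (w.injective h1)
  have n1 : ¬ key v w i < key v w j := by rw [h]; exact lt_irrefl _
  have n2 : ¬ key v w j < key v w i := by rw [h]; exact lt_irrefl _
  rw [key_lt] at n1 n2
  rcases lt_or_gt_of_ne hw with h1 | h1
  · have : ¬ ((v i : ℕ) + i = v j + j) := fun h2 => n1 (Or.inr ⟨h2, h1⟩)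
    omega
  · have : ¬ ((v i : ℕ) + i = v j + j) := fun h2 => n2 (Or.inr ⟨h2.symm, h1⟩)
    omega

/-- the pattern of `w` inside the layers of `v` -/
theorem exists_flat {n : ℕ} {v : Perm (Fin n)} (hv : IsLayered v) (w : Perm (Fin n)) :
    ∃ z : Perm (Fin n), ∀ i j : Fin n, i < j → (z j < z i ↔ (w j < w i ∧ v j < v i)) := by
  refine ⟨(Tuple.sort (key v w))⁻¹, fun i j hij => ?_⟩
  have hm : StrictMono (key v w ∘ Tuple.sort (key v w)) :=
    (Tuple.monotone_sort (key v w)).strictMono_of_injective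
      ((key_inj v w).comp (Tuple.sort (key v w)).injective)
  have h1 : (Tuple.sort (key v w))⁻¹ j < (Tuple.sort (key v w))⁻¹ i ↔
      key v w j < key v w i := by
    rw [← hm.lt_iff_lt]
    have e : ∀ x, (key v w ∘ Tuple.sort (key v w)) ((Tuple.sort (key v w))⁻¹ x) = key v w x :=
      fun x => congrArg (key v w) ((Tuple.sort (key v w)).apply_symm_apply x)
    rw [e, e]
  rw [h1, key_lt]
  rcases layered_pair hv hij with ⟨h2, h3⟩ | ⟨h2, h3⟩
  · constructor
    · rintro (h | ⟨_, h⟩)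
      · omega
      · exact ⟨h, h3⟩
    · rintro ⟨h, _⟩
      exact Or.inr ⟨h2.symm, h⟩
  · constructor
    · rintro (h | ⟨h, _⟩)
      · omega
      · omega
    · rintro ⟨_, h⟩
      exact absurd h (lt_asymm h3)

/-- the pairs of positions which are ordered differently by `w` and by `v` -/
def disF {n : ℕ} (w v : Perm (Fin n)) : Finset (Fin n × Fin n) :=
  univ.filter fun p => p.1 < p.2 ∧ ¬ (w p.2 < w p.1 ↔ v p.2 < v p.1)

lemma iot_val {n : ℕ} (w : Perm (Fin n)) {x : ℕ} (hx : x < n) : iot w x = w ⟨x, hx⟩ :=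
  iot_apply w ⟨x, hx⟩

lemma card_dis {n : ℕ} (w v : Perm (Fin n)) : (Dis n (iot w) (iot v)).card = (disF w v).card := by
  have h : Dis n (iot w) (iot v) =
      (disF w v).image (fun p => ((p.1 : ℕ), (p.2 : ℕ))) := by
    ext ⟨x, y⟩
    simp only [Dis, disF, mem_filter, mem_product, mem_range, mem_image, mem_univ, true_and,
      Prod.mk.injEq, Prod.exists]
    constructor
    · rintro ⟨⟨hx, hy⟩, h1, h2⟩
      refine ⟨⟨x, hx⟩, ⟨y, hy⟩, ⟨h1, ?_⟩, rfl, rfl⟩
      rw [iot_val w hx, iot_val w hy, iot_val v hx, iot_val v hy] at h2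
      exact h2
    · rintro ⟨i, j, ⟨h1, h2⟩, rfl, rfl⟩
      refine ⟨⟨i.2, j.2⟩, h1, ?_⟩
      rw [iot_apply, iot_apply, iot_apply, iot_apply]
      exact h2
  rw [h, card_image_of_injective]
  rintro ⟨a, b⟩ ⟨c, d⟩ h1
  simp only [Prod.mk.injEq] at h1
  rw [Fin.ext h1.1, Fin.ext h1.2]

/-- the three inversion sets -/
theorem flat_cards {n : ℕ} {v : Perm (Fin n)} (hv : IsLayered v) (w : Perm (Fin n)) :
    ∃ (z : Perm (Fin n)) (k1 k2 : ℕ), Iv n (iot z) ⊆ Iv n (iot w) ∧ Iv n (iot z) ⊆ Iv n (iot v) ∧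
      (Iv n (iot w)).card = (Iv n (iot z)).card + k1 ∧
      (Iv n (iot v)).card = (Iv n (iot z)).card + k2 ∧ k1 + k2 = (disF w v).card := by
  obtain ⟨z, hz⟩ := exists_flat hv w
  have key : ∀ x y, x < n → y < n → x < y →
      (iot z y < iot z x ↔ (iot w y < iot w x ∧ iot v y < iot v x)) := by
    intro x y hx hy hxy
    have := hz ⟨x, hx⟩ ⟨y, hy⟩ hxy
    rw [iot_val z hx, iot_val z hy, iot_val w hx, iot_val w hy, iot_val v hx, iot_val v hy]
    exact this
  have s1 : Iv n (iot z) ⊆ Iv n (iot w) := by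
    rintro ⟨x, y⟩ h
    simp only [Iv, mem_filter, mem_product, mem_range] at h ⊢
    exact ⟨h.1, h.2.1, ((key x y h.1.1 h.1.2 h.2.1).1 h.2.2).1⟩
  have s2 : Iv n (iot z) ⊆ Iv n (iot v) := by
    rintro ⟨x, y⟩ h
    simp only [Iv, mem_filter, mem_product, mem_range] at h ⊢
    exact ⟨h.1, h.2.1, ((key x y h.1.1 h.1.2 h.2.1).1 h.2.2).2⟩
  refine ⟨z, (Iv n (iot w) \ Iv n (iot z)).card, (Iv n (iot v) \ Iv n (iot z)).card, s1, s2, ?_,
    ?_, ?_⟩
  · rw [card_sdiff_of_subset s1]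
    have := card_le_card s1
    omega
  · rw [card_sdiff_of_subset s2]
    have := card_le_card s2
    omega
  · rw [← card_dis, ← card_union_of_disjoint]
    · congr 1
      ext ⟨x, y⟩
      simp only [Iv, Dis, mem_union, mem_sdiff, mem_filter, mem_product, mem_range]
      constructor
      · rintro (⟨⟨h1, h2, h3⟩, h4⟩ | ⟨⟨h1, h2, h3⟩, h4⟩)
        · refine ⟨h1, h2, fun h5 => h4 ⟨h1, h2, ?_⟩⟩
          rw [key x y h1.1 h1.2 h2]
          exact ⟨h3, h5.1 h3⟩
        · refine ⟨h1, h2, fun h5 => h4 ⟨h1, h2, ?_⟩⟩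
          rw [key x y h1.1 h1.2 h2]
          exact ⟨h5.2 h3, h3⟩
      · rintro ⟨h1, h2, h3⟩
        by_cases h4 : iot w y < iot w x
        · left
          refine ⟨⟨h1, h2, h4⟩, fun h5 => h3 ?_⟩
          have h6 := (key x y h1.1 h1.2 h2).1 h5.2.2
          exact ⟨fun _ => h6.2, fun _ => h6.1⟩
        · right
          have h7 : iot v y < iot v x := by
            by_contra h8
            exact h3 ⟨fun h => absurd h h4, fun h => absurd h h8⟩
          refine ⟨⟨h1, h2, h7⟩, fun h5 => ?_⟩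
          have h6 := (key x y h1.1 h1.2 h2).1 h5.2.2
          exact h4 h6.1
    · rw [disjoint_left]
      rintro ⟨x, y⟩ ha hb
      simp only [Iv, mem_sdiff, mem_filter, mem_product, mem_range] at ha hb
      apply ha.2
      refine ⟨ha.1.1, ha.1.2.1, ?_⟩
      rw [key x y ha.1.1.1 ha.1.1.2 ha.1.2.1]
      exact ⟨ha.1.2.2, hb.1.2.2⟩

end Pool.Agent.helper54.Far
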