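import Pool.Agent.helper54.Far.Num
import Pool.Agent.helper58.Far.Down

/-!
# Every maximizer of the principal evaluation is far from every layered permutation
-/

set_option autoImplicit false
open Finset Equiv Pool.Agent.helper54.Schub Pool.Agent.helper54.Expl

namespace Pool.Agent.helper54.Far

/-- comparison of an arbitrary permutation with a layered one -/
theorem val_compare {n : ℕ} (hn : 1 ≤ n) (w : Perm (Fin n)) {v : Perm (Fin n)}
    (hv : IsLayered v) (y : ℚ) (hy : 0 < y) (hy1 : y ≤ 1) :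
    ∃ (k1 k2 : ℕ) (z : ℚ), k1 + k2 = (disF w v).card ∧
      y ^ k1 * val n (iot w) ≤ (1 + y) ^ (n * (n - 1) / 2) * z ∧
      (1 - y) ^ (n * (n - 1) / 2) * y ^ k2 * z ≤ val n (iot v) := by
  obtain ⟨z, k1, k2, s1, s2, c1, c2, c3⟩ := flat_cards hv w
  exact ⟨k1, k2, val n (iot z), c3,
    helper58.Far.val_up n k1 (iot w) (iot z) (fa_iot z) s1 c1 y hy,
    helper58.Far.val_down n k2 hn (iot v) (iot z) (fa_iot v) (fa_iot z) s2 c2 y hy.le hy1⟩

/-- **Main theorem.** -/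
theorem far_layered (n : ℕ) (hn : 10 ^ 14 ≤ n) (S : Perm (Fin n) → MvPolynomial (Fin n) ℤ)
    (hS : IsSchubert n S) (w : Perm (Fin n))
    (hw : ∀ x : Perm (Fin n),
      ((nu S x : ℤ) : ℝ) ≤ Real.exp ((n : ℝ) ^ 2 / 10 ^ 29) * ((nu S w : ℤ) : ℝ))
    (v : Perm (Fin n)) (hv : IsLayered v) : n ^ 2 ≤ 10 ^ 30 * (disF w v).card := by
  obtain ⟨k1, k2, z, c3, u1, u2⟩ := val_compare (by omega) w hv (1 / 2 ^ 100) (by norm_num)
    (by norm_num)
  obtain ⟨W, hW⟩ := Expl.main n hn S hS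
  have h3 := hW v hv
  have h4 := hw W
  have ew := nu_eq_val hS w
  have ev := nu_eq_val hS v
  have h5 : Real.exp (9 * (n : ℝ) ^ 2 / 10 ^ 29) * ((val n (iot v) : ℚ) : ℝ) ≤
      ((val n (iot w) : ℚ) : ℝ) := by
    rw [← ew, ← ev]
    push_cast
    have h6 : Real.exp ((n : ℝ) ^ 2 / 10 ^ 28) = Real.exp (9 * (n : ℝ) ^ 2 / 10 ^ 29) *
        Real.exp ((n : ℝ) ^ 2 / 10 ^ 29) := by
      rw [← Real.exp_add]
      congr 1
      ring
    have h7 := h3.trans h4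
    rw [h6] at h7
    have h8 : 0 < Real.exp ((n : ℝ) ^ 2 / 10 ^ 29) := Real.exp_pos _
    refine le_of_mul_le_mul_left ?_ h8
    calc Real.exp ((n : ℝ) ^ 2 / 10 ^ 29) * (Real.exp (9 * (n : ℝ) ^ 2 / 10 ^ 29) *
          ((nu S v : ℤ) : ℝ)) = Real.exp (9 * (n : ℝ) ^ 2 / 10 ^ 29) *
            Real.exp ((n : ℝ) ^ 2 / 10 ^ 29) * ((nu S v : ℤ) : ℝ) := by ring
      _ ≤ _ := h7
  have u1' : (1 / 2 ^ 100 : ℝ) ^ k1 * ((val n (iot w) : ℚ) : ℝ) ≤
      (1 + 1 / 2 ^ 100) ^ (n * (n - 1) / 2) * (z : ℝ) := by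
    have h := (Rat.cast_le (K := ℝ)).2 u1
    push_cast at h
    exact h
  have u2' : (1 - 1 / 2 ^ 100 : ℝ) ^ (n * (n - 1) / 2) * (1 / 2 ^ 100) ^ k2 * (z : ℝ) ≤
      ((val n (iot v) : ℚ) : ℝ) := by
    have h := (Rat.cast_le (K := ℝ)).2 u2
    push_cast at h
    exact h
  have hv0 : (0 : ℝ) < ((val n (iot v) : ℚ) : ℝ) := by exact_mod_cast hv.lay.val_pos
  have h6 := far_num n k1 k2 _ _ _ hv0 u1' u2' h5
  rw [c3] at h6
  exact_mod_cast h6

/-- the same for maximizers -/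
theorem far_max (n : ℕ) (hn : 10 ^ 14 ≤ n) (S : Perm (Fin n) → MvPolynomial (Fin n) ℤ)
    (hS : IsSchubert n S) (w : Perm (Fin n)) (hw : ∀ x : Perm (Fin n), nu S x ≤ nu S w)
    (v : Perm (Fin n)) (hv : IsLayered v) :
    n ^ 2 ≤ 10 ^ 30 * (univ.filter fun p : Fin n × Fin n =>
      p.1 < p.2 ∧ ¬ (w p.2 < w p.1 ↔ v p.2 < v p.1)).card := by
  refine far_layered n hn S hS w (fun x => ?_) v hv
  have h1 : ((nu S x : ℤ) : ℝ) ≤ ((nu S w : ℤ) : ℝ) := by exact_mod_cast hw x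
  have h2 : (0 : ℝ) ≤ ((nu S w : ℤ) : ℝ) := by
    have h3 := nu_eq_val hS w
    have h4 := val_nonneg n (iot w)
    rw [← h3] at h4
    exact_mod_cast h4
  have h5 : (1 : ℝ) ≤ Real.exp ((n : ℝ) ^ 2 / 10 ^ 29) := Real.one_le_exp (by positivity)
  refine h1.trans ?_
  calc ((nu S w : ℤ) : ℝ) = 1 * ((nu S w : ℤ) : ℝ) := (one_mul _).symm
    _ ≤ _ := mul_le_mul_of_nonneg_right h5 h2

end Pool.Agent.helper54.Far
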