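import Pool.Agent.helper54.Far.Flat

/-!
# Numbers for the distance to the layered permutations
-/

set_option autoImplicit false
open Finset Equiv Pool.Agent.helper54.Schub

namespace Pool.Agent.helper54.Far

/-- the general numeric step -/
theorem far_gen (N k1 k2 : ℕ) (g y vw vz vv : ℝ) (hy : 0 < y) (hy1 : y ≤ 1 / 2) (hvv : 0 < vv)
    (h1 : y ^ k1 * vw ≤ (1 + y) ^ N * vz)
    (h2 : (1 - y) ^ N * y ^ k2 * vz ≤ vv) (h3 : Real.exp g * vv ≤ vw) :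
    g ≤ 3 * N * y + (k1 + k2 : ℕ) * (- Real.log y) := by
  have hy2 : 0 ≤ 1 - y := by linarith
  have e1 : Real.exp g * (1 - y) ^ N * y ^ (k1 + k2) * vv ≤ (1 + y) ^ N * vv := by
    calc Real.exp g * (1 - y) ^ N * y ^ (k1 + k2) * vv
        = (Real.exp g * vv) * ((1 - y) ^ N * y ^ k2 * y ^ k1) := by ring
      _ ≤ vw * ((1 - y) ^ N * y ^ k2 * y ^ k1) := by
          apply mul_le_mul_of_nonneg_right h3 (by positivity)
      _ = (1 - y) ^ N * y ^ k2 * (y ^ k1 * vw) := by ring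
      _ ≤ (1 - y) ^ N * y ^ k2 * ((1 + y) ^ N * vz) := by
          apply mul_le_mul_of_nonneg_left h1 (by positivity)
      _ = (1 + y) ^ N * ((1 - y) ^ N * y ^ k2 * vz) := by ring
      _ ≤ (1 + y) ^ N * vv := mul_le_mul_of_nonneg_left h2 (by positivity)
  have e2 : Real.exp g * (1 - y) ^ N * y ^ (k1 + k2) ≤ (1 + y) ^ N :=
    le_of_mul_le_mul_right e1 hvv
  have e3 : (1 + y) ^ N ≤ Real.exp (N * y) := by
    have h4 : 1 + y ≤ Real.exp y := by rw [add_comm]; exact Real.add_one_le_exp y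
    calc (1 + y) ^ N ≤ Real.exp y ^ N := pow_le_pow_left₀ (by positivity) h4 _
      _ = _ := by rw [← Real.exp_nat_mul]
  have e4 : Real.exp (-(2 * N * y)) ≤ (1 - y) ^ N := by
    have h4 : Real.exp (-(2 * y)) ≤ 1 - y := by
      rw [Real.exp_neg]
      have h5 := Real.add_one_le_exp (2 * y)
      have h6 : 0 < Real.exp (2 * y) := Real.exp_pos _
      rw [inv_le_iff_one_le_mul₀ h6]
      nlinarith
    calc Real.exp (-(2 * N * y)) = Real.exp (-(2 * y)) ^ N := by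
          rw [← Real.exp_nat_mul]; congr 1; ring
      _ ≤ _ := pow_le_pow_left₀ (Real.exp_pos _).le h4 _
  have e5 : Real.exp ((k1 + k2 : ℕ) * Real.log y) = y ^ (k1 + k2) := by
    rw [Real.exp_nat_mul, Real.exp_log hy]
  have e6 : Real.exp (g + -(2 * N * y) + (k1 + k2 : ℕ) * Real.log y) ≤ Real.exp (N * y) := by
    rw [Real.exp_add, Real.exp_add, e5]
    refine le_trans ?_ (e2.trans e3)
    apply mul_le_mul_of_nonneg_right _ (by positivity)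
    exact mul_le_mul_of_nonneg_left e4 (Real.exp_pos _).le
  have e7 := Real.exp_le_exp.1 e6
  linarith

/-- the numeric step with `y = 2 ^ (-100)` -/
theorem far_num (n k1 k2 : ℕ) (vw vz vv : ℝ) (hvv : 0 < vv)
    (h1 : (1 / 2 ^ 100) ^ k1 * vw ≤ (1 + 1 / 2 ^ 100) ^ (n * (n - 1) / 2) * vz)
    (h2 : (1 - 1 / 2 ^ 100) ^ (n * (n - 1) / 2) * (1 / 2 ^ 100) ^ k2 * vz ≤ vv)
    (h3 : Real.exp (9 * (n : ℝ) ^ 2 / 10 ^ 29) * vv ≤ vw) :
    (n : ℝ) ^ 2 ≤ 10 ^ 30 * (k1 + k2 : ℕ) := by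
  have h4 := far_gen (n * (n - 1) / 2) k1 k2 _ (1 / 2 ^ 100) vw vz vv (by positivity)
    (by norm_num) hvv h1 h2 h3
  have h5 : - Real.log (1 / 2 ^ 100) ≤ 69.32 := by
    rw [one_div, Real.log_inv, Real.log_pow, neg_neg]
    have := Real.log_two_lt_d9
    push_cast
    linarith
  have h6 : (((n * (n - 1) / 2 : ℕ)) : ℝ) ≤ (n : ℝ) ^ 2 / 2 := by
    have h7 : n * (n - 1) / 2 * 2 ≤ n ^ 2 := by
      calc n * (n - 1) / 2 * 2 ≤ n * (n - 1) := Nat.div_mul_le_self _ _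
        _ ≤ n * n := Nat.mul_le_mul_left _ (Nat.sub_le _ _)
        _ = n ^ 2 := by ring
    have h8 : (((n * (n - 1) / 2 : ℕ)) : ℝ) * 2 ≤ (n : ℝ) ^ 2 := by exact_mod_cast h7
    linarith
  have h9 : ((k1 + k2 : ℕ) : ℝ) * (- Real.log (1 / 2 ^ 100)) ≤ (k1 + k2 : ℕ) * 69.32 := by
    apply mul_le_mul_of_nonneg_left h5 (by positivity)
  have h13 : (1 : ℝ) / 2 ^ 100 ≤ 1 / 10 ^ 30 := by norm_num
  have h10 : (3 : ℝ) * (((n * (n - 1) / 2 : ℕ)) : ℝ) * (1 / 2 ^ 100) ≤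
      3 * ((n : ℝ) ^ 2 / 2) * (1 / 10 ^ 30) := by
    apply mul_le_mul _ h13 (by positivity) (by positivity)
    linarith
  have h11 : 9 * (n : ℝ) ^ 2 / 10 ^ 29 ≤ 3 * ((n : ℝ) ^ 2 / 2) * (1 / 10 ^ 30) +
      (k1 + k2 : ℕ) * 69.32 := by linarith
  have h15 : (0 : ℝ) ≤ ((k1 + k2 : ℕ) : ℝ) := Nat.cast_nonneg _
  have h16 : 9 * (n : ℝ) ^ 2 / 10 ^ 29 - 3 * ((n : ℝ) ^ 2 / 2) * (1 / 10 ^ 30) =
      88.5 / 10 ^ 30 * (n : ℝ) ^ 2 := by ring
  have h17 : 88.5 / 10 ^ 30 * (n : ℝ) ^ 2 ≤ (k1 + k2 : ℕ) * 69.32 := by linarith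
  have h18 : (0 : ℝ) ≤ (n : ℝ) ^ 2 := by positivity
  have h19 : 88.5 / 10 ^ 30 * (n : ℝ) ^ 2 = 88.5 * (n : ℝ) ^ 2 / 10 ^ 30 := by ring
  rw [h19, div_le_iff₀ (by positivity)] at h17
  nlinarith

end Pool.Agent.helper54.Far
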